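import Pool.Agent.H8.UB.Targets

/-!
# Board ubd_modules, row STZ: countably many countable algebraically closed fields
-/

set_option autoImplicit false

namespace Pool.Agent.H78.UB

open Pool.Agent.H8.UB

/-- the index sets of the transcendence bases -/
def J : Option ℕ → Type
  | some n => Fin n
  | none => ℕ

/-- the class of a field -/
def Cls (i : ℕ × Option ℕ) (K : Type) [Field K] : Prop :=
  ∃ _ : CharP K i.1, letI := ZMod.algebra K i.1
    ∃ x : J i.2 → K, IsTranscendenceBasis (ZMod i.1) x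

theorem cls_exists (K : Type) [Field K] [Countable K] : ∃ i, Cls i K := by
  obtain ⟨p, hp⟩ := CharP.exists K
  let _ := ZMod.algebra K p
  have : FaithfulSMul (ZMod p) K := by
    rw [faithfulSMul_iff_algebraMap_injective]
    exact ZMod.castHom_injective K
  obtain ⟨s, hs⟩ := exists_isTranscendenceBasis (ZMod p) K
  rcases Set.finite_or_infinite s with hf | hinf
  · have := hf.to_subtype
    obtain ⟨n, ⟨e⟩⟩ := Finite.exists_equiv_fin s
    exact ⟨(p, some n), hp, fun j => (e.symm j : K), (isTranscendenceBasis_equiv e.symm).2 hs⟩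
  · have := hinf.to_subtype
    obtain ⟨e⟩ : Nonempty (s ≃ ℕ) := nonempty_equiv_of_countable
    exact ⟨(p, none), hp, fun j => (e.symm j : K), (isTranscendenceBasis_equiv e.symm).2 hs⟩

theorem cls_equiv {i : ℕ × Option ℕ} {K L : Type} [Field K] [Field L] [IsAlgClosed K]
    [IsAlgClosed L] (hK : Cls i K) (hL : Cls i L) : Nonempty (K ≃+* L) := by
  obtain ⟨hp, x, hx⟩ := hK
  obtain ⟨hq, y, hy⟩ := hL
  let _ := ZMod.algebra K i.1
  let _ := ZMod.algebra L i.1
  exact ⟨IsAlgClosed.equivOfTranscendenceBasis x y (Equiv.refl _) hx hy⟩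

theorem pf_STZ : T_STZ := by
  have h : ∀ i : ℕ × Option ℕ, ∃ (F : Type) (_ : Field F) (_ : Countable F),
      (∃ (K : Type) (_ : Field K) (_ : IsAlgClosed K) (_ : Countable K), Cls i K) →
        IsAlgClosed F ∧ Cls i F := by
    intro i
    by_cases hex : ∃ (K : Type) (_ : Field K) (_ : IsAlgClosed K) (_ : Countable K), Cls i K
    · obtain ⟨K, f, a, c, hc⟩ := hex
      exact ⟨K, f, c, fun _ => ⟨a, hc⟩⟩
    · exact ⟨ℚ, inferInstance, inferInstance, fun h' => absurd h' hex⟩
  choose F hF hc hcl using h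
  refine ⟨ℕ × Option ℕ, inferInstance, F, hF, hc, ?_⟩
  intro K₀ _ _ _
  obtain ⟨i, hi⟩ := cls_exists K₀
  obtain ⟨h1, h2⟩ := hcl i ⟨K₀, inferInstance, inferInstance, inferInstance, hi⟩
  exact ⟨i, cls_equiv hi h2⟩

end Pool.Agent.H78.UB
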