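import Pool.Agent.H8.UB.Targets

/-!
# Board ubd_modules, row CDE: finitely generated subfunctors are given by formulas
-/

set_option autoImplicit false

open CategoryTheory

namespace Pool.Agent.H78.UB

open Pool.Agent.H56.UDs Pool.Agent.H8.UB

theorem sub_ext {S : Type} [Ring S] {A B : Sub (UF S)} (h : ∀ M x, x ∈ A.car M ↔ x ∈ B.car M) :
    A = B := by
  obtain ⟨a, ha⟩ := A
  obtain ⟨b, hb⟩ := B
  have : a = b := funext fun M => AddSubgroup.ext fun x => h M x
  subst this
  rfl

theorem factor {S Y M : Type} [Ring S] [AddCommGroup Y] [Module S Y] [AddCommGroup M] [Module S M]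
    {N : ℕ} (π : (Fin N → S) →ₗ[S] Y) (hπ : Function.Surjective π) (φ : (Fin N → S) →ₗ[S] M)
    (h : ∀ w, π w = 0 → φ w = 0) : ∃ f : Y →ₗ[S] M, ∀ w, f (π w) = φ w := by
  have hle : LinearMap.ker π ≤ LinearMap.ker φ := fun w hw =>
    LinearMap.mem_ker.2 (h w (LinearMap.mem_ker.1 hw))
  refine ⟨((LinearMap.ker π).liftQ φ hle).comp
    (π.quotKerEquivOfSurjective hπ).symm.toLinearMap, fun w => ?_⟩
  have e : (π.quotKerEquivOfSurjective hπ).symm (π w) = Submodule.Quotient.mk w := by
    rw [LinearEquiv.symm_apply_eq]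
    rfl
  rw [LinearMap.comp_apply, LinearEquiv.coe_coe, e]
  exact Submodule.liftQ_apply _ _ _

theorem pf_CDE : T_CDE := by
  intro S _ _ A hA
  obtain ⟨Y, η, hη, hgen⟩ := hA
  obtain ⟨N, π, hπ⟩ := Module.Finite.exists_fin' S Y
  obtain ⟨v, hv⟩ := hπ η
  have hfg : (LinearMap.ker π).FG := IsNoetherian.noetherian _
  obtain ⟨m, b, hb⟩ := Submodule.fg_iff_exists_fin_generating_family.1 hfg
  have hb0 : ∀ l, π (b l) = 0 := fun l => by
    have : b l ∈ LinearMap.ker π := by
      rw [← hb]
      exact Submodule.subset_span ⟨l, rfl⟩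
    exact LinearMap.mem_ker.1 this
  have hsum : ∀ (M : Type) [AddCommGroup M] [Module S M] (g : (Fin N → S) →ₗ[S] M)
      (w : Fin N → S), ∑ i, w i • g (Pi.single i 1) = g w := by
    intro M _ _ g w
    rw [LinearMap.pi_apply_eq_sum_univ g w]
    refine Finset.sum_congr rfl fun i _ => ?_
    have : (fun j => if i = j then (1 : S) else 0) = Pi.single i 1 := by
      funext j
      rw [Pi.single_apply]
      by_cases hij : i = j
      · rw [if_pos hij, if_pos hij.symm]
      · rw [if_neg hij, if_neg (Ne.symm hij)]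
    rw [this]
  refine ⟨⟨N, m + 1, Fin.cons 1 fun _ => 0, Fin.cons (fun i => -v i) fun l => b l⟩,
    sub_ext fun M x => ⟨?_, ?_⟩⟩
  · rintro ⟨y, hy⟩
    have h0 := hy 0
    simp only [Fin.cons_zero, one_smul, neg_smul, Finset.sum_neg_distrib] at h0
    have h0' : ∑ i, v i • y i = x := (add_neg_eq_zero.1 h0).symm
    have hl : ∀ l, ∑ i, b l i • y i = 0 := by
      intro l
      have := hy l.succ
      simpa only [Fin.cons_succ, zero_smul, zero_add] using this
    have hφ : ∀ w : Fin N → S, Fintype.linearCombination S y w = ∑ i, w i • y i := fun w => rfl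
    obtain ⟨f, hf⟩ := factor π hπ (Fintype.linearCombination S y) (fun w hw => by
      have hw' : w ∈ Submodule.span S (Set.range b) := by
        rw [hb]
        exact LinearMap.mem_ker.2 hw
      refine Submodule.span_induction (p := fun w _ => Fintype.linearCombination S y w = 0)
        ?_ ?_ ?_ ?_ hw'
      · rintro _ ⟨l, rfl⟩
        rw [hφ]
        exact hl l
      · exact map_zero _
      · intro a c _ _ h1 h2
        rw [map_add, h1, h2, add_zero]
      · intro s a _ h1
        rw [map_smul, h1, smul_zero])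
    have hfη : f η = x := by
      rw [← hv, hf, hφ]
      exact h0'
    have := A.map_mem (ConcreteCategory.ofHom (C := FGModuleCat.{0} S) f : Y ⟶ M) η hη
    have e : ((UF S).map (ConcreteCategory.ofHom (C := FGModuleCat.{0} S) f : Y ⟶ M)).hom η = x :=
      hfη
    rw [e] at this
    exact this
  · intro hx
    obtain ⟨f, hf⟩ := hgen M x hx
    have hf' : f.hom.hom η = x := hf
    refine ⟨fun i => f.hom.hom (π (Pi.single i 1)), fun j => ?_⟩
    have key : ∀ w : Fin N → S, ∑ i, w i • f.hom.hom (π (Pi.single i 1)) = f.hom.hom (π w) :=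
      fun w => hsum M (f.hom.hom.comp π) w
    refine Fin.cases ?_ (fun l => ?_) j
    · simp only [Fin.cons_zero, one_smul, neg_smul, Finset.sum_neg_distrib]
      rw [key, hv, hf', add_neg_cancel]
    · simp only [Fin.cons_succ, zero_smul, zero_add]
      rw [key, hb0, map_zero]

end Pool.Agent.H78.UB
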